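import Mathlib
import Pool.Agent.P.MP_0b3dfe_lc.Main

namespace Pool.Agent.Results.MP_0b3dfe_lc.NoChoice

open Pool.Agent.P.MP_3ab3de_lc Pool.Agent.P.MP_0b3dfe_lc

/-- Countable transitive models of ZFC exist, and each of them has the same ordinals as a
transitive model `N` of ZFC in which the iterated `C(aa)` sequence is definable and strictly
decreasing at every finite stage, and its intersection is a model of ZF in which choice fails. -/
theorem result : (∃ M : Set ZFSet.{0}, TModel M ∧ M.Countable) ∧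
    ∀ M : Set ZFSet.{0}, TModel M → M.Countable →
      ∃ N : Set ZFSet.{0}, TModel N ∧ (∀ o : ZFSet.{0}, o.IsOrdinal → (o ∈ N ↔ o ∈ M)) ∧
        (∃ (φ : Fml) (v : ℕ → ZFSet.{0}), (∀ k, v k ∈ N) ∧ ∀ n : ℕ, ∀ x ∈ N,
          x ∈ It N n ↔ Sat N φ (cons x (cons (Ordinal.toZFSet n) v))) ∧
        (∀ n, It N (n + 1) ≠ It N n) ∧ ZModel (⋂ n, It N n) ∧ ¬ Choice (⋂ n, It N n) :=
  main

end Pool.Agent.Results.MP_0b3dfe_lc.NoChoice
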