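import Mathlib
import Pool.Agent.P.MP_0b3dfe_lc.Q2.Main
import Pool.Agent.P.MP_3ab3de_lc.MinCtm

namespace Pool.Agent.Results.MP_0b3dfe_lc.NoZF

open Pool.Agent.P.MP_3ab3de_lc Pool.Agent.P.MP_0b3dfe_lc

/-- Countable transitive models of ZFC exist, and for each of them there is a countable
transitive model `N` of ZFC, of no greater height, in which every finite stage of the iterated
`C(aa)` sequence is a model of ZFC, the sequence is strictly decreasing at every finite stage,
and its intersection is not a model of ZF. -/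
theorem result : (∃ M : Set ZFSet.{0}, TModel M ∧ M.Countable) ∧
    ∀ M : Set ZFSet.{0}, TModel M → M.Countable →
      ∃ N : Set ZFSet.{0}, TModel N ∧ N.Countable ∧
        (∀ o : ZFSet.{0}, o.IsOrdinal → o ∈ N → o ∈ M) ∧ (∀ n, TModel (It N n)) ∧
        (∀ n, It N (n + 1) ≠ It N n) ∧ ¬ ZModel (⋂ n, It N n) :=
  ⟨ctm, Q2.main⟩

end Pool.Agent.Results.MP_0b3dfe_lc.NoZF
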